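import Pool.Agent.H51.Ham.Count

/-!
Averaging the number of points over all subcubes of a fixed dimension.
-/

set_option autoImplicit false

namespace H51Ham

open Finset

/-- every point lies in `3 ^ m` based subcubes for each set of `m` directions -/
theorem sum_cnt {n : ℕ} (W : Finset (Fin n → ZMod 3)) (m : ℕ) :
    ∑ x : Fin n → ZMod 3, ∑ D ∈ powersetCard m (univ : Finset (Fin n)), cnt W x D =
      n.choose m * (3 ^ m * W.card) := by
  classical
  rw [sum_comm]
  have h : ∀ D ∈ powersetCard m (univ : Finset (Fin n)), ∑ x : Fin n → ZMod 3, cnt W x D =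
      3 ^ m * W.card := by
    intro D hD
    rw [mem_powersetCard] at hD
    have h1 : ∀ x : Fin n → ZMod 3, cnt W x D = ∑ w ∈ W, if Agree D w x then 1 else 0 := by
      intro x
      unfold cnt
      rw [card_filter]
    simp only [h1]
    rw [sum_comm]
    have h2 : ∀ w ∈ W, (∑ x : Fin n → ZMod 3, if Agree D w x then 1 else 0) = 3 ^ m := by
      intro w _
      rw [← card_filter, ← hD.2, ← card_cube w D]
      congr 1
      ext x
      simp only [mem_filter, mem_univ, true_and, mem_cube]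
      exact ⟨fun h => h.symm, fun h => h.symm⟩
    rw [sum_congr rfl h2, sum_const, smul_eq_mul, mul_comm]
  rw [sum_congr rfl h, sum_const, smul_eq_mul, card_powersetCard, card_univ, Fintype.card_fin]

open Classical in
theorem avg_le {n p m : ℕ} (W : Finset (Fin n → ZMod 3))
    (hW : ∀ (b : Fin n → ZMod 3) (D : Finset (Fin n)), D.card = m → ¬ Ord W (p + 1) b D →
      3 * cnt W b D ≤ 3 ^ m) :
    3 * (n.choose m * W.card) ≤ 3 ^ n * n.choose m + 3 * (ordPairs W (p + 1) m).card := by
  have h1 := sum_cnt W m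
  have h2 : 3 * ∑ x : Fin n → ZMod 3, ∑ D ∈ powersetCard m (univ : Finset (Fin n)), cnt W x D ≤
      ∑ x : Fin n → ZMod 3, ∑ D ∈ powersetCard m (univ : Finset (Fin n)),
        (3 ^ m + (if Ord W (p + 1) x D then 3 * 3 ^ m else 0)) := by
    rw [mul_sum]
    refine sum_le_sum fun x _ => ?_
    rw [mul_sum]
    refine sum_le_sum fun D hD => ?_
    rw [mem_powersetCard] at hD
    split_ifs with h
    · have h3 := cnt_le_cube W x D
      rw [hD.2] at h3
      omega
    · exact (hW x D hD.2 h).trans (Nat.le_add_right _ _)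
  have h3 : ∑ x : Fin n → ZMod 3, ∑ D ∈ powersetCard m (univ : Finset (Fin n)),
      (3 ^ m + (if Ord W (p + 1) x D then 3 * 3 ^ m else 0)) =
      3 ^ n * (n.choose m * 3 ^ m) + (ordPairs W (p + 1) m).card * (3 * 3 ^ m) := by
    simp only [sum_add_distrib, sum_const, smul_eq_mul, card_powersetCard, card_univ,
      Fintype.card_fin, Fintype.card_fun, ZMod.card]
    congr 1
    rw [← sum_product' univ (powersetCard m (univ : Finset (Fin n)))
      (fun x D => if Ord W (p + 1) x D then 3 * 3 ^ m else 0)]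
    rw [← sum_filter, sum_const, smul_eq_mul]
    congr 2
    ext ⟨x, D⟩
    simp only [mem_filter, mem_product, mem_univ, true_and, mem_powersetCard, mem_ordPairs,
      subset_univ]
  rw [h1, h3] at h2
  have h4 : 0 < 3 ^ m := by positivity
  have h5 : 3 ^ m * (3 * (n.choose m * W.card)) ≤
      3 ^ m * (3 ^ n * n.choose m + 3 * (ordPairs W (p + 1) m).card) := by
    calc 3 ^ m * (3 * (n.choose m * W.card)) = 3 * (n.choose m * (3 ^ m * W.card)) := by ring
      _ ≤ _ := h2
      _ = 3 ^ m * (3 ^ n * n.choose m + 3 * (ordPairs W (p + 1) m).card) := by ring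
  exact Nat.le_of_mul_le_mul_left h5 h4

theorem pow_le_choose_of_two_mul_le {n m : ℕ} (h : 2 * m ≤ n) :
    n ^ m ≤ 2 ^ m * m.factorial * n.choose m := by
  have h1 : n ≤ 2 * (n + 1 - m) := by omega
  have h2 : (n + 1 - m) ^ m ≤ m.factorial * n.choose m := by
    have := Nat.pow_le_choose (α := ℚ) m n
    have h3 : (0 : ℚ) < m.factorial := by exact_mod_cast m.factorial_pos
    rw [div_le_iff₀ h3] at this
    have h4 : ((((n + 1 - m) ^ m : ℕ) : ℚ)) ≤ ((m.factorial * n.choose m : ℕ) : ℚ) := by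
      push_cast
      rw [mul_comm]
      exact_mod_cast this
    exact_mod_cast h4
  calc n ^ m ≤ (2 * (n + 1 - m)) ^ m := Nat.pow_le_pow_left h1 m
    _ = 2 ^ m * (n + 1 - m) ^ m := by rw [mul_pow]
    _ ≤ 2 ^ m * (m.factorial * n.choose m) := Nat.mul_le_mul_left _ h2
    _ = 2 ^ m * m.factorial * n.choose m := by ring

open Classical in
/-- if every subcube of dimension `m` of order at most `p` has at most one third of its points in
`W`, then `W` has density at most `1/3 + C (d/n)^(p+1)` -/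
theorem avg_bound (p m : ℕ) : ∃ C : ℕ, ∀ (n d : ℕ) (W : Finset (Fin n → ZMod 3)),
    1 ≤ n → 1 ≤ d → (∀ x ∈ W, (univ.filter (fun i => Edge W i x)).card ≤ d) →
    (∀ (b : Fin n → ZMod 3) (D : Finset (Fin n)), D.card = m → ¬ Ord W (p + 1) b D →
      3 * cnt W b D ≤ 3 ^ m) →
    3 * W.card * n ^ (p + 1) ≤ 3 ^ n * n ^ (p + 1) + C * 3 ^ n * d ^ (p + 1) := by
  obtain ⟨C, hC⟩ := ord_count (p + 1) m
  refine ⟨3 * C * (2 ^ m * m.factorial) + 3 * (2 * m) ^ (p + 1), fun n d W hn hd hdeg hW => ?_⟩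
  by_cases hnm : 2 * m ≤ n
  · have h1 := avg_le W hW
    have h2 := hC n d W hdeg
    have h3 := pow_le_choose_of_two_mul_le hnm
    have h4 : 0 < n.choose m := Nat.choose_pos (by omega)
    have h5 : n.choose m * (3 * W.card * n ^ (p + 1)) ≤
        n.choose m * (3 ^ n * n ^ (p + 1) + 3 * C * (2 ^ m * m.factorial) * 3 ^ n * d ^ (p + 1)) := by
      calc n.choose m * (3 * W.card * n ^ (p + 1))
          = (3 * (n.choose m * W.card)) * n ^ (p + 1) := by ring
        _ ≤ (3 ^ n * n.choose m + 3 * (ordPairs W (p + 1) m).card) * n ^ (p + 1) :=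
            Nat.mul_le_mul_right _ h1
        _ = 3 ^ n * n.choose m * n ^ (p + 1) + 3 * ((ordPairs W (p + 1) m).card * n ^ (p + 1)) := by
            ring
        _ ≤ 3 ^ n * n.choose m * n ^ (p + 1) + 3 * (C * 3 ^ n * n ^ m * d ^ (p + 1)) := by
            gcongr
        _ = 3 ^ n * n.choose m * n ^ (p + 1) + 3 * C * 3 ^ n * d ^ (p + 1) * n ^ m := by ring
        _ ≤ 3 ^ n * n.choose m * n ^ (p + 1) +
              3 * C * 3 ^ n * d ^ (p + 1) * (2 ^ m * m.factorial * n.choose m) := by
            gcongr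
        _ = n.choose m *
              (3 ^ n * n ^ (p + 1) + 3 * C * (2 ^ m * m.factorial) * 3 ^ n * d ^ (p + 1)) := by
            ring
    have h6 := Nat.le_of_mul_le_mul_left h5 h4
    refine h6.trans ?_
    gcongr
    exact Nat.le_add_right _ _
  · have hn2 : n ≤ 2 * m := by omega
    have hWc : W.card ≤ 3 ^ n := by
      have := card_le_univ W
      rwa [Fintype.card_fun, ZMod.card, Fintype.card_fin] at this
    have hd1 : 1 ≤ d ^ (p + 1) := Nat.one_le_pow _ _ hd
    calc 3 * W.card * n ^ (p + 1) ≤ 3 * 3 ^ n * (2 * m) ^ (p + 1) := by gcongr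
      _ = (3 * (2 * m) ^ (p + 1)) * 3 ^ n * 1 := by ring
      _ ≤ (3 * (2 * m) ^ (p + 1)) * 3 ^ n * d ^ (p + 1) := Nat.mul_le_mul_left _ hd1
      _ ≤ (3 * C * (2 ^ m * m.factorial) + 3 * (2 * m) ^ (p + 1)) * 3 ^ n * d ^ (p + 1) := by
          gcongr
          exact Nat.le_add_left _ _
      _ ≤ _ := Nat.le_add_left _ _

end H51Ham
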