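import Pool.Agent.H51.Ham.Def

/-!
Counting the pairs (point, set of directions) of order at least `k`.
-/

set_option autoImplicit false

namespace H51Ham

open Finset

/-- the pairs `(b, D)` with `|D| = t` for which the order of `W` in the subcube `(b, D)` is at least `k` -/
noncomputable def ordPairs {n : ℕ} (W : Finset (Fin n → ZMod 3)) (k t : ℕ) :
    Finset ((Fin n → ZMod 3) × Finset (Fin n)) := by
  classical exact univ.filter (fun q => q.2.card = t ∧ Ord W k q.1 q.2)

theorem mem_ordPairs {n : ℕ} {W : Finset (Fin n → ZMod 3)} {k t : ℕ}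
    {q : (Fin n → ZMod 3) × Finset (Fin n)} :
    q ∈ ordPairs W k t ↔ q.2.card = t ∧ Ord W k q.1 q.2 := by
  classical
  simp [ordPairs]

open Classical in
/-- the cover of the pairs of order `k + 1` by pairs of order `k` and a costly direction -/
theorem ordPairs_succ_subset {n : ℕ} (W : Finset (Fin n → ZMod 3)) (k t : ℕ) :
    ordPairs W (k + 1) t ⊆ (range t).biUnion (fun t' => (ordPairs W k t').biUnion (fun q =>
      (cube q.1 q.2).biUnion (fun x => (univ.filter (fun i => Edge W i x)).biUnion (fun i =>
        (powersetCard (t - 1 - t') univ).biUnion (fun F =>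
          (cube q.1 (insert i (q.2 ∪ F))).image (fun b => (b, insert i (q.2 ∪ F)))))))) := by
  rintro ⟨b, D⟩ hbD
  rw [mem_ordPairs] at hbD
  obtain ⟨hcard, i, hi, D', hD', b', hb', ho, x, hx, he⟩ := hbD
  simp only at hcard hi hD' hb' ho hx he
  have hlt : D'.card < t := by
    have h1 := card_le_card hD'
    have h2 := card_erase_lt_of_mem hi
    omega
  have hDD' : D' ⊆ D := hD'.trans (erase_subset _ _)
  have hiD' : i ∉ D' := fun h => (notMem_erase i D) (hD' h)
  have hF : insert i (D' ∪ (D.erase i \ D')) = D := by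
    rw [union_sdiff_of_subset hD', insert_erase hi]
  have hFc : (D.erase i \ D').card = t - 1 - D'.card := by
    rw [card_sdiff_of_subset hD', card_erase_of_mem hi, hcard]
  simp only [mem_biUnion, mem_range, mem_image]
  refine ⟨D'.card, hlt, (b', D'), mem_ordPairs.mpr ⟨rfl, ho⟩, x, mem_cube.mpr hx, i, ?_,
    D.erase i \ D', ?_, b, ?_, ?_⟩
  · simp [he]
  · rw [mem_powersetCard]
    exact ⟨subset_univ _, hFc⟩
  · rw [mem_cube]
    simp only
    rw [hF]
    exact hb'.symm
  · simp only
    rw [hF]

open Classical in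
theorem card_ordPairs_succ_le {n d : ℕ} (W : Finset (Fin n → ZMod 3)) (k t : ℕ)
    (hd : ∀ x ∈ W, (univ.filter (fun i => Edge W i x)).card ≤ d) :
    (ordPairs W (k + 1) t).card ≤
      ∑ t' ∈ range t, (ordPairs W k t').card * (3 ^ t' * (d * (n ^ (t - 1 - t') * 3 ^ t))) := by
  refine (card_le_card (ordPairs_succ_subset W k t)).trans ?_
  refine card_biUnion_le.trans (sum_le_sum fun t' ht' => ?_)
  rw [mem_range] at ht'
  refine card_biUnion_le_card_mul _ _ _ fun q hq => ?_
  rw [mem_ordPairs] at hq
  rw [← hq.1, ← card_cube q.1 q.2, hq.1]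
  refine card_biUnion_le_card_mul _ _ _ fun x _ => ?_
  have hx : (univ.filter (fun i => Edge W i x)).card ≤ d := by
    by_cases h : x ∈ W
    · exact hd x h
    · have h0 : (univ.filter (fun i => Edge W i x)) = ∅ := by
        rw [filter_eq_empty_iff]
        exact fun i _ he => h he.1
      rw [h0, card_empty]
      exact Nat.zero_le d
  refine (card_biUnion_le_card_mul _ _ (n ^ (t - 1 - t') * 3 ^ t) fun i _ => ?_).trans
    (Nat.mul_le_mul_right _ hx)
  refine (card_biUnion_le_card_mul _ _ (3 ^ t) fun F hF => ?_).trans (Nat.mul_le_mul_right _ ?_)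
  · rw [mem_powersetCard] at hF
    refine card_image_le.trans ?_
    rw [card_cube]
    refine Nat.pow_le_pow_right (by norm_num) ?_
    refine (card_insert_le _ _).trans ?_
    have h1 := card_union_le q.2 F
    rw [hq.1, hF.2] at h1
    omega
  · rw [card_powersetCard, card_univ, Fintype.card_fin]
    exact Nat.choose_le_pow _ _

open Classical in
/-- the number of pairs of order at least `k`: a factor `d / n` for each costly step -/
theorem ord_count (k t : ℕ) : ∃ C : ℕ, ∀ (n d : ℕ) (W : Finset (Fin n → ZMod 3)),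
    (∀ x ∈ W, (univ.filter (fun i => Edge W i x)).card ≤ d) →
    (ordPairs W k t).card * n ^ k ≤ C * 3 ^ n * n ^ t * d ^ k := by
  induction k generalizing t with
  | zero =>
    refine ⟨1, fun n d W _ => ?_⟩
    have h1 : ordPairs W 0 t ⊆ univ ×ˢ powersetCard t univ := by
      rintro ⟨b, D⟩ h
      rw [mem_ordPairs] at h
      rw [mem_product, mem_powersetCard]
      exact ⟨mem_univ _, subset_univ _, h.1⟩
    have h2 := card_le_card h1
    rw [card_product, card_powersetCard, card_univ, card_univ, Fintype.card_fun, ZMod.card,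
      Fintype.card_fin] at h2
    have h3 : n.choose t ≤ n ^ t := Nat.choose_le_pow _ _
    simp only [pow_zero, mul_one, one_mul]
    exact h2.trans (Nat.mul_le_mul_left _ h3)
  | succ k ih =>
    choose C hC using ih
    refine ⟨∑ t' ∈ range t, C t' * (3 ^ t' * 3 ^ t), fun n d W hd => ?_⟩
    have h1 := card_ordPairs_succ_le W k t hd
    calc (ordPairs W (k + 1) t).card * n ^ (k + 1)
        ≤ (∑ t' ∈ range t, (ordPairs W k t').card * (3 ^ t' * (d * (n ^ (t - 1 - t') * 3 ^ t)))) *
          n ^ (k + 1) := Nat.mul_le_mul_right _ h1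
      _ = ∑ t' ∈ range t, ((ordPairs W k t').card * n ^ k) *
            (3 ^ t' * 3 ^ t * d * (n ^ (t - 1 - t') * n)) := by
          rw [sum_mul]
          refine sum_congr rfl fun t' _ => ?_
          ring
      _ ≤ ∑ t' ∈ range t, (C t' * 3 ^ n * n ^ t' * d ^ k) *
            (3 ^ t' * 3 ^ t * d * (n ^ (t - 1 - t') * n)) :=
          sum_le_sum fun t' _ => Nat.mul_le_mul_right _ (hC t' n d W hd)
      _ = ∑ t' ∈ range t, C t' * (3 ^ t' * 3 ^ t) * 3 ^ n * n ^ t * d ^ (k + 1) := by
          refine sum_congr rfl fun t' ht' => ?_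
          rw [mem_range] at ht'
          have h2 : n ^ t = n ^ t' * (n ^ (t - 1 - t') * n) := by
            rw [← pow_succ, ← pow_add]
            congr 1
            omega
          rw [h2]
          ring
      _ = (∑ t' ∈ range t, C t' * (3 ^ t' * 3 ^ t)) * 3 ^ n * n ^ t * d ^ (k + 1) := by
          rw [sum_mul, sum_mul, sum_mul]

end H51Ham
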