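import Mathlib

/-!
Subsets of `Z_3^ι` and their traces on coordinate subcubes: basic definitions and counting.

`Agree D x b`: `x` and `b` agree outside `D`, i.e. `x` lies in the subcube through `b` with free
directions `D`.  `Edge W i x`: `x` and another point of the line through `x` in direction `i` lie in `W`.
`Ord W k b D`: the subcube `(b, D)` contains a flag of subcubes with at least `k` costly steps.
-/

set_option autoImplicit false
set_option linter.unusedSectionVars false

namespace H51Ham

open Finset

variable {ι : Type*} [DecidableEq ι] [Fintype ι]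

/-- `x` lies in the subcube through `b` with free directions `D`. -/
def Agree (D : Finset ι) (x b : ι → ZMod 3) : Prop := ∀ j, j ∉ D → x j = b j

/-- the subcube through `b` with free directions `D`. -/
noncomputable def cube (b : ι → ZMod 3) (D : Finset ι) : Finset (ι → ZMod 3) := by
  classical exact univ.filter (fun x => Agree D x b)

/-- number of points of `W` in the subcube. -/
noncomputable def cnt (W : Finset (ι → ZMod 3)) (b : ι → ZMod 3) (D : Finset ι) : ℕ := by
  classical exact (W.filter (fun x => Agree D x b)).card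

/-- `x ∈ W` has a neighbour in `W` in direction `i`. -/
def Edge (W : Finset (ι → ZMod 3)) (i : ι) (x : ι → ZMod 3) : Prop :=
  x ∈ W ∧ ∃ a, a ≠ x i ∧ Function.update x i a ∈ W

/-- the order of `W` in the subcube `(b, D)` is at least `k`. -/
def Ord (W : Finset (ι → ZMod 3)) : ℕ → (ι → ZMod 3) → Finset ι → Prop
  | 0, _, _ => True
  | k + 1, b, D => ∃ i ∈ D, ∃ D' : Finset ι, D' ⊆ D.erase i ∧ ∃ b', Agree D b' b ∧ Ord W k b' D' ∧
      ∃ x, Agree D' x b' ∧ Edge W i x

/-- the directions of `D` which have an edge in the subcube `(b, D)`. -/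
noncomputable def J (W : Finset (ι → ZMod 3)) (b : ι → ZMod 3) (D : Finset ι) : Finset ι := by
  classical exact D.filter (fun i => ∃ x, Agree D x b ∧ Edge W i x)

theorem Agree.refl (D : Finset ι) (x : ι → ZMod 3) : Agree D x x := fun _ _ => rfl

theorem Agree.symm {D : Finset ι} {x y : ι → ZMod 3} (h : Agree D x y) : Agree D y x :=
  fun j hj => (h j hj).symm

theorem Agree.trans {D : Finset ι} {x y z : ι → ZMod 3} (h : Agree D x y) (h' : Agree D y z) :
    Agree D x z := fun j hj => (h j hj).trans (h' j hj)

theorem Agree.mono {D D' : Finset ι} {x y : ι → ZMod 3} (h : Agree D x y) (hD : D ⊆ D') :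
    Agree D' x y := fun j hj => h j (fun h1 => hj (hD h1))

theorem agree_update {D : Finset ι} {i : ι} (hi : i ∈ D) (x : ι → ZMod 3) (a : ZMod 3) :
    Agree D (Function.update x i a) x := by
  intro j hj
  rw [Function.update_of_ne]
  rintro rfl
  exact hj hi

theorem mem_cube {b x : ι → ZMod 3} {D : Finset ι} : x ∈ cube b D ↔ Agree D x b := by
  classical
  simp [cube]

theorem mem_J {W : Finset (ι → ZMod 3)} {b : ι → ZMod 3} {D : Finset ι} {i : ι} :
    i ∈ J W b D ↔ i ∈ D ∧ ∃ x, Agree D x b ∧ Edge W i x := by
  classical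
  simp [J]

theorem cnt_congr (W : Finset (ι → ZMod 3)) {b b' : ι → ZMod 3} {D : Finset ι} (h : Agree D b b') :
    cnt W b D = cnt W b' D := by
  classical
  unfold cnt
  congr 1
  ext x
  simp only [mem_filter]
  exact ⟨fun hx => ⟨hx.1, hx.2.trans h⟩, fun hx => ⟨hx.1, hx.2.trans h.symm⟩⟩

/-- the point which equals `x` on `D` and `b` outside `D`. -/
def mix (D : Finset ι) (x b : ι → ZMod 3) : ι → ZMod 3 := fun j => if j ∈ D then x j else b j

theorem agree_mix (D : Finset ι) (x b : ι → ZMod 3) : Agree D (mix D x b) b := by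
  intro j hj
  simp [mix, hj]

theorem cnt_split (W : Finset (ι → ZMod 3)) (b : ι → ZMod 3) {D E : Finset ι} (h : Disjoint D E) :
    cnt W b (D ∪ E) = ∑ y ∈ cube b E, cnt W y D := by
  classical
  unfold cnt
  rw [Finset.card_eq_sum_card_fiberwise (f := fun x => mix E x b) (t := cube b E)]
  · apply Finset.sum_congr rfl
    intro y hy
    rw [mem_cube] at hy
    congr 1
    ext x
    simp only [mem_filter]
    constructor
    · rintro ⟨⟨hx, hA⟩, hm⟩
      refine ⟨hx, fun j hj => ?_⟩
      rw [← hm]
      by_cases hE : j ∈ E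
      · simp [mix, hE]
      · simp only [mix, hE, if_false]
        exact hA j (by simp [hj, hE])
    · rintro ⟨hx, hA⟩
      refine ⟨⟨hx, fun j hj => ?_⟩, ?_⟩
      · rw [mem_union, not_or] at hj
        rw [hA j hj.1, hy j hj.2]
      · funext j
        by_cases hE : j ∈ E
        · simp only [mix, hE, if_true]
          exact hA j (fun hD => (Finset.disjoint_left.mp h) hD hE)
        · simp only [mix, hE, if_false]
          exact (hy j hE).symm
  · intro x hx
    simp only [Finset.mem_coe, mem_cube]
    exact agree_mix _ _ _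

theorem card_cube (b : ι → ZMod 3) (D : Finset ι) : (cube b D).card = 3 ^ D.card := by
  classical
  have h : (cube b D).card = Fintype.card (D → ZMod 3) := by
    rw [← Finset.card_univ]
    apply Finset.card_bij (fun x _ => fun j : D => x j)
    · intro x _
      exact mem_univ _
    · intro x hx y hy hxy
      rw [mem_cube] at hx hy
      funext j
      by_cases hj : j ∈ D
      · exact congrFun hxy ⟨j, hj⟩
      · rw [hx j hj, hy j hj]
    · intro g _
      refine ⟨fun j => if hj : j ∈ D then g ⟨j, hj⟩ else b j, ?_, ?_⟩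
      · rw [mem_cube]
        intro j hj
        simp [hj]
      · funext j
        simp
  rw [h, Fintype.card_fun, ZMod.card, Fintype.card_coe]

theorem cnt_insert (W : Finset (ι → ZMod 3)) (b : ι → ZMod 3) {D : Finset ι} {i : ι} (hi : i ∉ D) :
    cnt W b (insert i D) = ∑ a : ZMod 3, cnt W (Function.update b i a) D := by
  classical
  have h1 : insert i D = D ∪ {i} := by
    rw [Finset.union_comm]; rfl
  rw [h1, cnt_split W b (by simpa using hi)]
  symm
  apply Finset.sum_bij (fun a _ => Function.update b i a)
  · intro a _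
    rw [mem_cube]
    exact agree_update (by simp) b a
  · intro a _ a' _ h
    have := congrFun h i
    simpa using this
  · intro y hy
    rw [mem_cube] at hy
    refine ⟨y i, mem_univ _, ?_⟩
    funext j
    by_cases hj : j = i
    · subst hj
      simp
    · rw [Function.update_of_ne hj]
      exact (hy j (by simpa using hj)).symm
  · intro a _
    rfl

theorem cnt_le_cube (W : Finset (ι → ZMod 3)) (b : ι → ZMod 3) (D : Finset ι) :
    cnt W b D ≤ 3 ^ D.card := by
  classical
  rw [← card_cube b D]
  unfold cnt
  apply Finset.card_le_card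
  intro x hx
  rw [mem_cube]
  exact (mem_filter.mp hx).2

theorem Ord.mono {W : Finset (ι → ZMod 3)} {k : ℕ} {b b' : ι → ZMod 3} {D D' : Finset ι}
    (h : Ord W k b' D') (hD : D' ⊆ D) (hb : Agree D b' b) : Ord W k b D := by
  cases k with
  | zero => trivial
  | succ k =>
    obtain ⟨i, hi, E, hE, c, hc, ho, x, hx, he⟩ := h
    exact ⟨i, hD hi, E, hE.trans (Finset.erase_subset_erase i hD), c, (hc.mono hD).trans hb, ho, x, hx, he⟩

theorem ord_step {W : Finset (ι → ZMod 3)} {k : ℕ} {b x : ι → ZMod 3} {D : Finset ι} {i : ι}
    (hi : i ∈ D) (hx : Agree D x b) (he : Edge W i x) (ho : Ord W k x (D.erase i)) :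
    Ord W (k + 1) b D :=
  ⟨i, hi, D.erase i, subset_rfl, x, hx, ho, x, Agree.refl _ _, he⟩

theorem Edge.swap {W : Finset (ι → ZMod 3)} {i : ι} {x : ι → ZMod 3} {a : ZMod 3} (hx : x ∈ W)
    (ha : a ≠ x i) (hu : Function.update x i a ∈ W) : Edge W i (Function.update x i a) := by
  refine ⟨hu, x i, ?_, ?_⟩
  · rw [Function.update_self]
    exact ha.symm
  · simpa using hx

theorem cnt_line (W : Finset (ι → ZMod 3)) (b : ι → ZMod 3) (i : ι) :
    cnt W b {i} = ((univ : Finset (ZMod 3)).filter (fun a => Function.update b i a ∈ W)).card := by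
  classical
  unfold cnt
  symm
  apply Finset.card_bij (fun a _ => Function.update b i a)
  · intro a ha
    rw [mem_filter] at ha ⊢
    exact ⟨ha.2, agree_update (by simp) b a⟩
  · intro a _ a' _ h
    have := congrFun h i
    simpa using this
  · intro y hy
    rw [mem_filter] at hy
    have h : Function.update b i (y i) = y := by
      funext j
      by_cases hj : j = i
      · subst hj
        simp
      · rw [Function.update_of_ne hj]
        exact (hy.2 j (by simpa using hj)).symm
    refine ⟨y i, ?_, h⟩
    rw [mem_filter]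
    exact ⟨mem_univ _, by rw [h]; exact hy.1⟩

/-- no edge in direction `i` at the points of the line: at most one point. -/
theorem cnt_line_le_one {W : Finset (ι → ZMod 3)} {b : ι → ZMod 3} {i : ι}
    (h : ∀ x, Agree {i} x b → ¬ Edge W i x) : cnt W b {i} ≤ 1 := by
  classical
  rw [cnt_line, Finset.card_le_one]
  intro a ha a' ha'
  rw [mem_filter] at ha ha'
  by_contra hne
  apply h (Function.update b i a) (agree_update (Finset.mem_singleton_self i) b a)
  refine ⟨ha.2, a', ?_, ?_⟩
  · rw [Function.update_self]
    exact fun h => hne h.symm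
  · rw [Function.update_idem]
    exact ha'.2

/-- two points on a line give an edge at each point of `W` on the line. -/
theorem edge_of_two {W : Finset (ι → ZMod 3)} {x : ι → ZMod 3} {i : ι} (hx : x ∈ W)
    (h : 2 ≤ cnt W x {i}) : Edge W i x := by
  classical
  rw [cnt_line] at h
  obtain ⟨a, ha, a', ha', hne⟩ := Finset.one_lt_card.mp h
  rw [mem_filter] at ha ha'
  by_cases h1 : a = x i
  · exact ⟨hx, a', fun h2 => hne (h1.trans h2.symm), ha'.2⟩
  · exact ⟨hx, a, h1, ha.2⟩

end H51Ham
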