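import Pool.Agent.H51.Ham.Def

/-!
A four-dimensional fibre: if all lines off `w` meet `W` in exactly one point and `w` has no
neighbour on its axis lines, then `W` has at most 27 points in the cube.
-/

set_option autoImplicit false
set_option linter.unusedSectionVars false

namespace H51Ham

open Finset

section core

theorem zmod3_cases {x y : ZMod 3} (hx : x ≠ 0) (hy : y ≠ 0) : y = x ∨ y = -x := by
  revert x y; decide

theorem neg_ne_self3 {x : ZMod 3} (hx : x ≠ 0) : -x ≠ x := by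
  revert x; decide

theorem not_of_zero {f : ZMod 3 → Prop} (h : ∃! x, f x) (h0 : f 0) {x : ZMod 3} (hx : x ≠ 0) :
    ¬ f x := fun hfx => hx (h.unique hfx h0)

theorem not_zero_of {f : ZMod 3 → Prop} (h : ∃! x, f x) {x : ZMod 3} (hx : x ≠ 0) (hf : f x) :
    ¬ f 0 := fun h0 => hx (h.unique hf h0)

theorem neg_of_not {f : ZMod 3 → Prop} (h : ∃! x, f x) (h0 : ¬ f 0) {x : ZMod 3} (hx : x ≠ 0)
    (hfx : ¬ f x) : f (-x) := by
  obtain ⟨y, hy, -⟩ := h
  have hy0 : y ≠ 0 := by rintro rfl; exact h0 hy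
  rcases zmod3_cases hx hy0 with rfl | rfl
  · exact absurd hy hfx
  · exact hy

theorem not_neg_of {f : ZMod 3 → Prop} (h : ∃! x, f x) {x : ZMod 3} (hx : x ≠ 0)
    (hfx : f x) : ¬ f (-x) := fun hn => neg_ne_self3 hx (h.unique hn hfx)

theorem core (P : ZMod 3 → ZMod 3 → ZMod 3 → ZMod 3 → Prop)
    (L1 : ∀ b c e, (b ≠ 0 ∨ c ≠ 0 ∨ e ≠ 0) → ∃! a, P a b c e)
    (L2 : ∀ a c e, (a ≠ 0 ∨ c ≠ 0 ∨ e ≠ 0) → ∃! b, P a b c e)
    (L3 : ∀ a b e, (a ≠ 0 ∨ b ≠ 0 ∨ e ≠ 0) → ∃! c, P a b c e)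
    (L4 : ∀ a b c, (a ≠ 0 ∨ b ≠ 0 ∨ c ≠ 0) → ∃! e, P a b c e)
    (A1 : ∀ a, a ≠ 0 → P a 0 0 0) (A2 : ∀ b, b ≠ 0 → P 0 b 0 0)
    (A3 : ∀ c, c ≠ 0 → P 0 0 c 0) : False := by
  have D12 : ∀ a b, a ≠ 0 → b ≠ 0 → ¬ P a b 0 0 := fun a b ha hb =>
    not_of_zero (L2 a 0 0 (Or.inl ha)) (A1 a ha) hb
  have D13 : ∀ a c, a ≠ 0 → c ≠ 0 → ¬ P a 0 c 0 := fun a c ha hc =>
    not_of_zero (L3 a 0 0 (Or.inl ha)) (A1 a ha) hc
  have D14 : ∀ a e, a ≠ 0 → e ≠ 0 → ¬ P a 0 0 e := fun a e ha he =>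
    not_of_zero (L4 a 0 0 (Or.inl ha)) (A1 a ha) he
  have D23 : ∀ b c, b ≠ 0 → c ≠ 0 → ¬ P 0 b c 0 := fun b c hb hc =>
    not_of_zero (L3 0 b 0 (Or.inr (Or.inl hb))) (A2 b hb) hc
  have D24 : ∀ b e, b ≠ 0 → e ≠ 0 → ¬ P 0 b 0 e := fun b e hb he =>
    not_of_zero (L4 0 b 0 (Or.inr (Or.inl hb))) (A2 b hb) he
  have D34 : ∀ c e, c ≠ 0 → e ≠ 0 → ¬ P 0 0 c e := fun c e hc he =>
    not_of_zero (L4 0 0 c (Or.inr (Or.inr hc))) (A3 c hc) he
  have h1 : (1 : ZMod 3) ≠ 0 := by decide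
  -- a word of weight four
  obtain ⟨a, b, c, e, ha, hb, hc, he, hP, hP4⟩ : ∃ a b c e : ZMod 3, a ≠ 0 ∧ b ≠ 0 ∧ c ≠ 0 ∧ e ≠ 0 ∧
      P a b c e ∧ ¬ P a b c 0 := by
    obtain ⟨a, ha, hna⟩ : ∃ a : ZMod 3, a ≠ 0 ∧ ¬ P a 1 1 0 := by
      by_cases h : P 1 1 1 0
      · exact ⟨-1, by decide, not_neg_of (L1 1 1 0 (Or.inl h1)) h1 h⟩
      · exact ⟨1, h1, h⟩
    obtain ⟨e, hPe, -⟩ := L4 a 1 1 (Or.inl ha)
    refine ⟨a, 1, 1, e, ha, h1, h1, ?_, hPe, hna⟩
    rintro rfl
    exact hna hPe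
  have hna : -a ≠ 0 := neg_ne_zero.mpr ha
  have hnb : -b ≠ 0 := neg_ne_zero.mpr hb
  have hne : -e ≠ 0 := neg_ne_zero.mpr he
  have hP3 : ¬ P a b 0 e := not_zero_of (L3 a b e (Or.inl ha)) hc hP
  have hP2 : ¬ P a 0 c e := not_zero_of (L2 a c e (Or.inl ha)) hb hP
  -- toggle `a`, then `b`
  have h5 : P (-a) b c 0 := neg_of_not (L1 b c 0 (Or.inl hb)) (D23 b c hb hc) ha hP4
  have h6 : ¬ P (-a) (-b) c 0 := not_neg_of (L2 (-a) c 0 (Or.inl hna)) hb h5
  obtain ⟨e', hPe', -⟩ := L4 (-a) (-b) c (Or.inl hna)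
  have he' : e' ≠ 0 := by rintro rfl; exact h6 hPe'
  rcases zmod3_cases he he' with rfl | rfl
  · have h7 : ¬ P (-a) 0 c e' := not_zero_of (L2 (-a) c e' (Or.inl hna)) hnb hPe'
    exact h7 (neg_of_not (L1 0 c e' (Or.inr (Or.inl hc))) (D34 c e' hc he) ha hP2)
  · have h7 : ¬ P (-a) (-b) 0 (-e) := not_zero_of (L3 (-a) (-b) (-e) (Or.inl hna)) hc hPe'
    have h8 : P (-a) b 0 e := neg_of_not (L1 b 0 e (Or.inl hb)) (D24 b e hb he) ha hP3
    have h9 : ¬ P (-a) (-b) 0 e := not_neg_of (L2 (-a) 0 e (Or.inl hna)) hb h8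
    exact h7 (neg_of_not (L4 (-a) (-b) 0 (Or.inl hna)) (D12 (-a) (-b) hna hnb) he h9)

end core

variable {ι : Type*} [DecidableEq ι] [Fintype ι]

theorem existsUnique_of_cnt {W : Finset (ι → ZMod 3)} {y : ι → ZMod 3} {i : ι}
    (h : cnt W y {i} = 1) : ∃! a, Function.update y i a ∈ W := by
  classical
  rw [cnt_line, Finset.card_eq_one] at h
  obtain ⟨a, ha⟩ := h
  have h1 : ∀ x, Function.update y i x ∈ W ↔ x = a := by
    intro x
    have := Finset.ext_iff.mp ha x
    simpa using this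
  exact ⟨a, (h1 a).mpr rfl, fun x hx => (h1 x).mp hx⟩

theorem existsUnique_shift {f : ZMod 3 → Prop} (h : ∃! a, f a) (s : ZMod 3) : ∃! a, f (s + a) := by
  obtain ⟨a, ha, hu⟩ := h
  refine ⟨a - s, by simpa using ha, fun y hy => ?_⟩
  have h1 := hu (s + y) hy
  rw [← h1]
  ring

theorem cnt_le_of_line (W : Finset (ι → ZMod 3)) (w : ι → ZMod 3) (I : Finset ι) {i : ι}
    (hi : i ∈ I)
    (h1 : ∀ y, Agree I y w → (∃ k ∈ I, k ≠ i ∧ y k ≠ w k) → cnt W y {i} = 1)
    (h : cnt W w {i} ≤ 1) : cnt W w I ≤ 3 ^ (I.card - 1) := by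
  classical
  have hI : I = {i} ∪ I.erase i := by
    ext j
    by_cases hj : j = i
    · subst hj; simp [hi]
    · simp [hj]
  rw [hI, cnt_split W w (by simp)]
  rw [← hI, ← Finset.card_erase_of_mem hi, ← card_cube w (I.erase i)]
  refine (Finset.sum_le_card_nsmul _ _ 1 ?_).trans (by simp)
  intro y hy
  rw [mem_cube] at hy
  by_cases hyw : y = w
  · rw [hyw]; exact h
  · obtain ⟨k, hk⟩ := Function.ne_iff.mp hyw
    have hkI : k ∈ I.erase i := by
      by_contra hcon
      exact hk (hy k hcon)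
    rw [Finset.mem_erase] at hkI
    exact (h1 y (hy.mono (Finset.erase_subset _ _)) ⟨k, hkI.2, hkI.1, hk⟩).le

/-- two points on the axis line through `w ∉ W`: all points of the line except `w`. -/
theorem axis_mem {W : Finset (ι → ZMod 3)} {w : ι → ZMod 3} {i : ι} (h : 2 ≤ cnt W w {i})
    (hw : w ∉ W) {a : ZMod 3} (ha : a ≠ w i) : Function.update w i a ∈ W := by
  classical
  rw [cnt_line] at h
  have h1 : ((univ : Finset (ZMod 3)).filter (fun a => Function.update w i a ∈ W))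
      ⊆ (univ : Finset (ZMod 3)).erase (w i) := by
    intro x hx
    rw [mem_filter] at hx
    rw [mem_erase]
    refine ⟨?_, mem_univ _⟩
    rintro rfl
    apply hw
    simpa using hx.2
  have h2 : ((univ : Finset (ZMod 3)).erase (w i)).card = 2 := by
    rw [Finset.card_erase_of_mem (mem_univ _), Finset.card_univ, ZMod.card]
  have h3 := Finset.eq_of_subset_of_card_le h1 (by omega)
  have h4 : a ∈ (univ : Finset (ZMod 3)).erase (w i) := by simp [ha]
  rw [← h3, mem_filter] at h4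
  exact h4.2

theorem fibre (W : Finset (ι → ZMod 3)) (w : ι → ZMod 3) (I : Finset ι) (hI : I.card = 4)
    (h1 : ∀ i ∈ I, ∀ y, Agree I y w → (∃ k ∈ I, k ≠ i ∧ y k ≠ w k) → cnt W y {i} = 1)
    (h2 : ∀ i ∈ I, ¬ Edge W i w) : cnt W w I ≤ 27 := by
  classical
  by_cases hax : ∃ i ∈ I, cnt W w {i} ≤ 1
  · obtain ⟨i, hi, hle⟩ := hax
    have := cnt_le_of_line W w I hi (h1 i hi) hle
    rw [hI] at this
    simpa using this
  · exfalso
    push Not at hax
    have hax' : ∀ i ∈ I, 2 ≤ cnt W w {i} := fun i hi => hax i hi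
    obtain ⟨i1, i2, i3, i4, h12, h13, h14, h23, h24, h34, hIeq⟩ := Finset.card_eq_four.mp hI
    have m1 : i1 ∈ I := by rw [hIeq]; simp
    have m2 : i2 ∈ I := by rw [hIeq]; simp
    have m3 : i3 ∈ I := by rw [hIeq]; simp
    have m4 : i4 ∈ I := by rw [hIeq]; simp
    have hw : w ∉ W := fun hw => h2 i1 m1 (edge_of_two hw (hax' i1 m1))
    set pt : ZMod 3 → ZMod 3 → ZMod 3 → ZMod 3 → ι → ZMod 3 := fun a b c e j =>
      if j = i1 then w i1 + a else if j = i2 then w i2 + b else if j = i3 then w i3 + c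
        else if j = i4 then w i4 + e else w j with hpt
    have hag : ∀ a b c e, Agree I (pt a b c e) w := by
      intro a b c e j hj
      have n1 : j ≠ i1 := by rintro rfl; exact hj m1
      have n2 : j ≠ i2 := by rintro rfl; exact hj m2
      have n3 : j ≠ i3 := by rintro rfl; exact hj m3
      have n4 : j ≠ i4 := by rintro rfl; exact hj m4
      simp [hpt, n1, n2, n3, n4]
    have e1 : ∀ a b c e, pt a b c e i1 = w i1 + a := fun a b c e => by simp [hpt]
    have e2 : ∀ a b c e, pt a b c e i2 = w i2 + b := fun a b c e => by simp [hpt, h12.symm]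
    have e3 : ∀ a b c e, pt a b c e i3 = w i3 + c := fun a b c e => by
      simp [hpt, h13.symm, h23.symm]
    have e4 : ∀ a b c e, pt a b c e i4 = w i4 + e := fun a b c e => by
      simp [hpt, h14.symm, h24.symm, h34.symm]
    have u1 : ∀ a b c e a', Function.update (pt a b c e) i1 (w i1 + a') = pt a' b c e := by
      intro a b c e a'
      funext j
      by_cases hj : j = i1
      · subst hj; simp [hpt]
      · rw [Function.update_of_ne hj]; simp [hpt, hj]
    have u2 : ∀ a b c e b', Function.update (pt a b c e) i2 (w i2 + b') = pt a b' c e := by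
      intro a b c e b'
      funext j
      by_cases hj : j = i2
      · subst hj; simp [hpt, h12.symm]
      · rw [Function.update_of_ne hj]; simp [hpt, hj]
    have u3 : ∀ a b c e c', Function.update (pt a b c e) i3 (w i3 + c') = pt a b c' e := by
      intro a b c e c'
      funext j
      by_cases hj : j = i3
      · subst hj; simp [hpt, h13.symm, h23.symm]
      · rw [Function.update_of_ne hj]; simp [hpt, hj]
    have u4 : ∀ a b c e e', Function.update (pt a b c e) i4 (w i4 + e') = pt a b c e' := by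
      intro a b c e e'
      funext j
      by_cases hj : j = i4
      · subst hj; simp [hpt, h14.symm, h24.symm, h34.symm]
      · rw [Function.update_of_ne hj]; simp [hpt, hj]
    have hz : pt 0 0 0 0 = w := by
      funext j
      by_cases j1 : j = i1
      · subst j1; simp [hpt]
      by_cases j2 : j = i2
      · subst j2; simp [hpt, h12.symm]
      by_cases j3 : j = i3
      · subst j3; simp [hpt, h13.symm, h23.symm]
      by_cases j4 : j = i4
      · subst j4; simp [hpt, h14.symm, h24.symm, h34.symm]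
      simp [hpt, j1, j2, j3, j4]
    apply core (fun a b c e => pt a b c e ∈ W)
    · intro b c e h
      have hne : ∃ k ∈ I, k ≠ i1 ∧ pt 0 b c e k ≠ w k := by
        rcases h with h | h | h
        · exact ⟨i2, m2, h12.symm, by rw [e2]; simpa using h⟩
        · exact ⟨i3, m3, h13.symm, by rw [e3]; simpa using h⟩
        · exact ⟨i4, m4, h14.symm, by rw [e4]; simpa using h⟩
      have h3 := existsUnique_shift (existsUnique_of_cnt (h1 i1 m1 _ (hag 0 b c e) hne)) (w i1)
      simpa only [u1] using h3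
    · intro a c e h
      have hne : ∃ k ∈ I, k ≠ i2 ∧ pt a 0 c e k ≠ w k := by
        rcases h with h | h | h
        · exact ⟨i1, m1, h12, by rw [e1]; simpa using h⟩
        · exact ⟨i3, m3, h23.symm, by rw [e3]; simpa using h⟩
        · exact ⟨i4, m4, h24.symm, by rw [e4]; simpa using h⟩
      have h3 := existsUnique_shift (existsUnique_of_cnt (h1 i2 m2 _ (hag a 0 c e) hne)) (w i2)
      simpa only [u2] using h3
    · intro a b e h
      have hne : ∃ k ∈ I, k ≠ i3 ∧ pt a b 0 e k ≠ w k := by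
        rcases h with h | h | h
        · exact ⟨i1, m1, h13, by rw [e1]; simpa using h⟩
        · exact ⟨i2, m2, h23, by rw [e2]; simpa using h⟩
        · exact ⟨i4, m4, h34.symm, by rw [e4]; simpa using h⟩
      have h3 := existsUnique_shift (existsUnique_of_cnt (h1 i3 m3 _ (hag a b 0 e) hne)) (w i3)
      simpa only [u3] using h3
    · intro a b c h
      have hne : ∃ k ∈ I, k ≠ i4 ∧ pt a b c 0 k ≠ w k := by
        rcases h with h | h | h
        · exact ⟨i1, m1, h14, by rw [e1]; simpa using h⟩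
        · exact ⟨i2, m2, h24, by rw [e2]; simpa using h⟩
        · exact ⟨i3, m3, h34, by rw [e3]; simpa using h⟩
      have h3 := existsUnique_shift (existsUnique_of_cnt (h1 i4 m4 _ (hag a b c 0) hne)) (w i4)
      simpa only [u4] using h3
    · intro a ha
      have h3 := axis_mem (hax' i1 m1) hw (a := w i1 + a) (by simpa using ha)
      have h4 := u1 0 0 0 0 a
      rw [hz] at h4
      rw [h4] at h3
      exact h3
    · intro b hb
      have h3 := axis_mem (hax' i2 m2) hw (a := w i2 + b) (by simpa using hb)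
      have h4 := u2 0 0 0 0 b
      rw [hz] at h4
      rw [h4] at h3
      exact h3
    · intro c hc
      have h3 := axis_mem (hax' i3 m3) hw (a := w i3 + c) (by simpa using hc)
      have h4 := u3 0 0 0 0 c
      rw [hz] at h4
      rw [h4] at h3
      exact h3

end H51Ham
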