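import Mathlib

/-!
In a directed graph with bounded out-degrees there are many pairwise non-adjacent vertices.
-/

set_option autoImplicit false

namespace H51Ham

open Finset

theorem exists_indep {ι : Type*} [DecidableEq ι] (R : Finset ι) (B : ι → Finset ι) (K : ℕ)
    (hB : ∀ i ∈ R, (B i).card ≤ K) (t : ℕ) (hR : t * (2 * K + 1) ≤ R.card) :
    ∃ I, I ⊆ R ∧ I.card = t ∧ ∀ i ∈ I, ∀ j ∈ I, i ≠ j → j ∉ B i := by
  induction t generalizing R with
  | zero => exact ⟨∅, empty_subset _, rfl, fun i hi => absurd hi (notMem_empty i)⟩
  | succ t ih =>
    have hne : R.Nonempty := by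
      rw [← Finset.card_pos]
      have : 0 < (t + 1) * (2 * K + 1) := by positivity
      omega
    -- some vertex has at most `K` in-neighbours
    obtain ⟨i, hi, hin⟩ : ∃ i ∈ R, (R.filter fun j => i ∈ B j).card ≤ K := by
      by_contra hcon
      push Not at hcon
      have h1 : ∑ i ∈ R, (R.filter fun j => i ∈ B j).card ≤ ∑ j ∈ R, (B j).card := by
        have h2 : ∑ i ∈ R, (R.filter fun j => i ∈ B j).card
            = ∑ j ∈ R, (R.filter fun i => i ∈ B j).card := by
          simp only [Finset.card_filter]
          exact Finset.sum_comm
        rw [h2]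
        refine Finset.sum_le_sum fun j _ => Finset.card_le_card fun i hi => (mem_filter.mp hi).2
      have h3 : ∑ j ∈ R, (B j).card ≤ R.card * K := by
        refine (Finset.sum_le_card_nsmul R _ K hB).trans ?_
        simp
      have h4 : R.card * (K + 1) ≤ ∑ i ∈ R, (R.filter fun j => i ∈ B j).card := by
        have := Finset.card_nsmul_le_sum R (fun i => (R.filter fun j => i ∈ B j).card) (K + 1)
          (fun i hi => hcon i hi)
        simpa using this
      have h5 : 0 < R.card := Finset.card_pos.mpr hne
      nlinarith
    set X : Finset ι := insert i (B i ∪ R.filter fun j => i ∈ B j) with hX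
    have hXc : X.card ≤ 2 * K + 1 := by
      have h1 := Finset.card_insert_le i (B i ∪ R.filter fun j => i ∈ B j)
      have h2 := Finset.card_union_le (B i) (R.filter fun j => i ∈ B j)
      have h3 := hB i hi
      rw [hX]
      omega
    obtain ⟨I, hI, hc, hind⟩ := ih (R \ X) (fun j hj => hB j (Finset.mem_sdiff.mp hj).1) (by
      have h1 : R.card ≤ (R \ X).card + X.card := by
        have := Finset.card_le_card_sdiff_add_card (s := R) (t := X)
        omega
      have h2 : (t + 1) * (2 * K + 1) = t * (2 * K + 1) + (2 * K + 1) := by ring
      omega)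
    have hiI : i ∉ I := fun h => (Finset.mem_sdiff.mp (hI h)).2 (by rw [hX]; exact mem_insert_self _ _)
    refine ⟨insert i I, ?_, by rw [Finset.card_insert_of_notMem hiI, hc], ?_⟩
    · intro j hj
      rcases Finset.mem_insert.mp hj with rfl | hj
      · exact hi
      · exact (Finset.mem_sdiff.mp (hI hj)).1
    · intro a ha b hb hab
      rcases Finset.mem_insert.mp ha with rfl | ha'
      · rcases Finset.mem_insert.mp hb with rfl | hb'
        · exact absurd rfl hab
        · intro h
          exact (Finset.mem_sdiff.mp (hI hb')).2 (by rw [hX]; simp [h])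
      · rcases Finset.mem_insert.mp hb with rfl | hb'
        · intro h
          exact (Finset.mem_sdiff.mp (hI ha')).2 (by
            rw [hX]
            refine mem_insert_of_mem (mem_union_right _ (mem_filter.mpr
              ⟨(Finset.mem_sdiff.mp (hI ha')).1, h⟩)))
        · exact hind a ha' b hb' hab

end H51Ham
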