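import Pool.Agent.H51.Ham.Str
import Pool.Agent.H51.Ham.Fib
import Pool.Agent.H51.Ham.Sel

/-!
Lemma L: for every `p` a subset of bounded order at most `p` in a subcube of large dimension contains at
most one third of the points of the subcube.
-/

set_option autoImplicit false
set_option linter.unusedSectionVars false

namespace H51Ham

open Finset

variable {ι : Type*} [DecidableEq ι] [Fintype ι]

/-- number of free directions needed for four independent ones. -/
def nL (m p : ℕ) : ℕ := 4 * (2 * (3 * jb m p) + 1)

/-- the dimension from which the bound one third holds for order at most `p`. -/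
def mL : ℕ → ℕ
  | 0 => 1
  | p + 1 => mL p + (2 * 3 ^ (mL p)) * nL (mL p) p

theorem one_le_mL (p : ℕ) : 1 ≤ mL p := by
  induction p with
  | zero => simp [mL]
  | succ p ih =>
    show 1 ≤ mL p + (2 * 3 ^ (mL p)) * nL (mL p) p
    omega

/-- expansion of the count over the values of one coordinate, with the value at `z` separated. -/
theorem cnt_insert' (W : Finset (ι → ZMod 3)) (z : ι → ZMod 3) {D : Finset ι} {i : ι} (hi : i ∉ D) :
    cnt W z (insert i D) = cnt W z D + ∑ a ∈ (univ : Finset (ZMod 3)).erase (z i),
      cnt W (Function.update z i a) D := by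
  rw [cnt_insert W z hi, ← Finset.add_sum_erase _ _ (mem_univ (z i))]
  simp

/-- the normalised excess. -/
noncomputable def EE (W : Finset (ι → ZMod 3)) (z : ι → ZMod 3) (D : Finset ι) : ℤ :=
  3 * (cnt W z D : ℤ) - 3 ^ D.card

theorem EE_insert (W : Finset (ι → ZMod 3)) (z : ι → ZMod 3) {D : Finset ι} {i : ι} (hi : i ∉ D) :
    EE W z (insert i D) = EE W z D + ∑ a ∈ (univ : Finset (ZMod 3)).erase (z i),
      EE W (Function.update z i a) D := by
  unfold EE
  rw [cnt_insert' W z hi, Finset.card_insert_of_notMem hi, Finset.sum_sub_distrib, ← Finset.mul_sum,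
    Finset.sum_const, Finset.card_erase_of_mem (mem_univ _), Finset.card_univ, ZMod.card]
  push_cast
  rw [pow_succ]
  simp
  ring

/-- subcubes with nonpositive excess of a cube with excess zero have excess zero. -/
theorem EE_sub_zero {W : Finset (ι → ZMod 3)} {b : ι → ZMod 3} {D F : Finset ι} (hF : F ⊆ D)
    (h0 : EE W b D = 0) (hle : ∀ y, Agree D y b → EE W y F ≤ 0) : EE W b F = 0 := by
  classical
  have h1 : F ∪ (D \ F) = D := Finset.union_sdiff_of_subset hF
  have h2 : ∑ y ∈ cube b (D \ F), EE W y F = 0 := by
    rw [← h0]
    unfold EE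
    conv_rhs => rw [← h1]
    rw [cnt_split W b Finset.disjoint_sdiff, Finset.sum_sub_distrib, Finset.sum_const, card_cube,
      Finset.card_union_of_disjoint Finset.disjoint_sdiff, ← Finset.mul_sum, pow_add]
    push_cast
    simp
    ring
  have h3 := (Finset.sum_eq_zero_iff_of_nonpos (s := cube b (D \ F)) (f := fun y => EE W y F) (by
    intro y hy
    rw [mem_cube] at hy
    exact hle y (hy.mono Finset.sdiff_subset))).mp h2
  exact h3 b (mem_cube.mpr (Agree.refl _ _))

theorem lemmaL (W : Finset (ι → ZMod 3)) : ∀ (p : ℕ) (b : ι → ZMod 3) (D : Finset ι),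
    mL p ≤ D.card → ¬ Ord W (p + 1) b D → 3 * cnt W b D ≤ 3 ^ D.card := by
  classical
  intro p
  induction p with
  | zero =>
    intro b D hm hO
    obtain ⟨i, hi⟩ := Finset.card_pos.mp (lt_of_lt_of_le Nat.zero_lt_one hm)
    apply cnt_le_of_no_edge hi
    intro x hx he
    exact hO ⟨i, hi, ∅, Finset.empty_subset _, x, hx, trivial, x, Agree.refl _ _, he⟩
  | succ p ih =>
    intro b D hm hO
    by_contra hpos
    push Not at hpos
    set m := mL p with hmdef
    have hm1 : 1 ≤ m := one_le_mL p
    have hmD : m + (2 * 3 ^ m) * nL m p ≤ D.card := hm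
    -- every direction has an edge
    have hedge : ∀ i ∈ D, ∃ x, Agree D x b ∧ Edge W i x := by
      intro i hi
      by_contra h
      push Not at h
      exact absurd (cnt_le_of_no_edge hi h) (not_le.mpr hpos)
    -- small subcubes of the slices through end points
    have hslice : ∀ i ∈ D, ∀ a, AV W b D i a → ∀ (b' : ι → ZMod 3) (D' : Finset ι), D' ⊆ D.erase i →
        Agree (D.erase i) b' (Function.update b i a) → m ≤ D'.card → EE W b' D' ≤ 0 := by
      intro i hi a ha b' D' hD' hb' hc
      have h1 := ih b' D' hc (fun ho => slice_order hi hO ha (ho.mono hD' hb'))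
      unfold EE
      have h2 : (3 * (cnt W b' D' : ℤ)) ≤ 3 ^ D'.card := by exact_mod_cast h1
      linarith
    have hposE : 0 < EE W b D := by
      unfold EE
      have h2 : (3 : ℤ) ^ D.card < 3 * (cnt W b D : ℤ) := by exact_mod_cast hpos
      linarith
    -- the third value of each coordinate
    have hc : ∀ i ∈ D, ∃ c, ¬ AV W b D i c := by
      intro i hi
      by_contra h
      push Not at h
      have h1 : insert i (D.erase i) = D := Finset.insert_erase hi
      have h2 := EE_insert W b (Finset.notMem_erase i D)
      rw [h1] at h2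
      have hcard : m ≤ (D.erase i).card := by
        rw [Finset.card_erase_of_mem hi]
        have : 1 ≤ (2 * 3 ^ m) * nL m p := by
          apply Nat.one_le_iff_ne_zero.mpr
          unfold nL
          positivity
        omega
      have h3 : EE W b (D.erase i) ≤ 0 := by
        apply hslice i hi (b i) (h (b i)) b (D.erase i) subset_rfl _ hcard
        rw [Function.update_eq_self]
        exact Agree.refl _ _
      have h4 : ∑ a ∈ (univ : Finset (ZMod 3)).erase (b i), EE W (Function.update b i a) (D.erase i) ≤ 0 := by
        apply Finset.sum_nonpos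
        intro a _
        exact hslice i hi a (h a) _ _ subset_rfl (Agree.refl _ _) hcard
      linarith
    let z : ι → ZMod 3 := fun i => if h : i ∈ D then Classical.choose (hc i h) else b i
    have hzb : Agree D z b := by
      intro j hj
      simp [z, hj]
    have hnA : ∀ i ∈ D, ¬ AV W b D i (z i) := by
      intro i hi
      have : z i = Classical.choose (hc i hi) := by simp [z, hi]
      rw [this]
      exact Classical.choose_spec (hc i hi)
    have hA : ∀ i ∈ D, ∀ a, a ≠ z i → AV W b D i a := by
      intro i hi a ha
      obtain ⟨x, hx, he⟩ := hedge i hi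
      obtain ⟨a1, a2, h12, h1, h2⟩ := av_two hi hx he
      rcases z3 a1 a2 (z i) a h12 (fun h => hnA i hi (h ▸ h1)) (fun h => hnA i hi (h ▸ h2)) ha with h | h
      · rw [h]; exact h1
      · rw [h]; exact h2
    -- subcubes of slices of cubes through `z`
    have hsz : ∀ i ∈ D, ∀ a, a ≠ z i → ∀ (b' : ι → ZMod 3) (D' : Finset ι), D' ⊆ D.erase i →
        Agree (D.erase i) b' (Function.update z i a) → m ≤ D'.card → EE W b' D' ≤ 0 := by
      intro i hi a ha b' D' hD' hb' hcd
      apply hslice i hi a (hA i hi a ha) b' D' hD' _ hcd
      refine hb'.trans ?_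
      intro j hj
      by_cases hji : j = i
      · subst hji
        simp
      · rw [Function.update_of_ne hji, Function.update_of_ne hji]
        apply hzb
        intro h
        exact hj (Finset.mem_erase.mpr ⟨hji, h⟩)
    have hstep : ∀ (D' : Finset ι) (i : ι), i ∉ D' → insert i D' ⊆ D → m ≤ D'.card →
        EE W z (insert i D') ≤ EE W z D' := by
      intro D' i hi hsub hcd
      rw [EE_insert W z hi]
      have hiD : i ∈ D := hsub (Finset.mem_insert_self i D')
      have hD' : D' ⊆ D.erase i := by
        intro j hj
        rw [Finset.mem_erase]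
        exact ⟨fun h => hi (h ▸ hj), hsub (Finset.mem_insert_of_mem hj)⟩
      have h4 : ∑ a ∈ (univ : Finset (ZMod 3)).erase (z i), EE W (Function.update z i a) D' ≤ 0 := by
        apply Finset.sum_nonpos
        intro a ha
        exact hsz i hiD a (Finset.ne_of_mem_erase ha) _ _ hD' (Agree.refl _ _) hcd
      linarith
    have hmono : ∀ (D' : Finset ι), m ≤ D'.card → ∀ T : Finset ι, D' ∪ T ⊆ D →
        EE W z (D' ∪ T) ≤ EE W z D' := by
      intro D' hcd T
      induction T using Finset.induction_on with
      | empty => intro _; simp
      | insert i T hiT ihT =>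
        intro hsub
        have hsub' : D' ∪ T ⊆ D := by
          intro j hj
          apply hsub
          rw [mem_union] at hj ⊢
          rcases hj with h | h
          · exact Or.inl h
          · exact Or.inr (Finset.mem_insert_of_mem h)
        have h1 := ihT hsub'
        by_cases hin : i ∈ D' ∪ T
        · have : D' ∪ insert i T = D' ∪ T := by
            rw [Finset.union_insert, Finset.insert_eq_of_mem hin]
          rw [this]
          exact h1
        · rw [Finset.union_insert]
          rw [Finset.union_insert] at hsub
          refine le_trans (hstep _ _ hin hsub ?_) h1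
          exact hcd.trans (Finset.card_le_card Finset.subset_union_left)
    have hmono' : ∀ (D' D'' : Finset ι), m ≤ D'.card → D' ⊆ D'' → D'' ⊆ D →
        EE W z D'' ≤ EE W z D' := by
      intro D' D'' hcd h1 h2
      have := hmono D' hcd D'' (by rwa [Finset.union_eq_right.mpr h1])
      rwa [Finset.union_eq_right.mpr h1] at this
    have hzD : EE W z D = EE W b D := by
      unfold EE
      rw [cnt_congr W hzb]
    have hP : ∀ D' : Finset ι, D' ⊆ D → m ≤ D'.card → 0 < EE W z D' := by
      intro D' h1 h2
      have := hmono' D' D h2 h1 subset_rfl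
      linarith
    -- pigeonhole
    set L := nL m p with hL
    have hpig : ∀ N : ℕ, ∀ D' : Finset ι, D' ⊆ D → m ≤ D'.card → EE W z D' ≤ N →
        N * L ≤ (D \ D').card → ∃ D1 D2 : Finset ι, D1 ⊆ D2 ∧ D2 ⊆ D ∧ m ≤ D1.card ∧
          (D2 \ D1).card = L ∧ EE W z D1 = EE W z D2 := by
      intro N
      induction N with
      | zero =>
        intro D' h1 h2 h3 _
        have := hP D' h1 h2
        push_cast at h3
        linarith
      | succ N ihN =>
        intro D' h1 h2 h3 h4
        have h5 : L ≤ (D \ D').card := le_trans (by nlinarith) h4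
        obtain ⟨T, hT, hTc⟩ := Finset.exists_subset_card_eq h5
        have hTd : Disjoint D' T := by
          rw [Finset.disjoint_left]
          intro j hj hjT
          exact (Finset.mem_sdiff.mp (hT hjT)).2 hj
        have hD2 : D' ∪ T ⊆ D := Finset.union_subset h1 (hT.trans Finset.sdiff_subset)
        have hc2 : (D' ∪ T) \ D' = T := by
          rw [Finset.union_sdiff_left]
          exact (Finset.sdiff_eq_self_iff_disjoint.mpr hTd.symm)
        by_cases heq : EE W z D' = EE W z (D' ∪ T)
        · exact ⟨D', D' ∪ T, Finset.subset_union_left, hD2, h2, by rw [hc2, hTc], heq⟩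
        · have h6 : EE W z (D' ∪ T) ≤ EE W z D' := hmono D' h2 T hD2
          have h7 : EE W z (D' ∪ T) < EE W z D' := lt_of_le_of_ne h6 (fun h => heq h.symm)
          apply ihN (D' ∪ T) hD2 (h2.trans (Finset.card_le_card Finset.subset_union_left))
          · push_cast at h3
            linarith
          · have h8 : (D \ (D' ∪ T)).card + T.card = (D \ D').card := by
              rw [← Finset.card_union_of_disjoint]
              · congr 1
                ext j
                simp only [mem_union, mem_sdiff]
                constructor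
                · rintro (⟨h, h'⟩ | h)
                  · exact ⟨h, fun hh => h' (Or.inl hh)⟩
                  · exact Finset.mem_sdiff.mp (hT h)
                · rintro ⟨h, h'⟩
                  by_cases hjT : j ∈ T
                  · exact Or.inr hjT
                  · exact Or.inl ⟨h, fun hh => hh.elim h' hjT⟩
              · rw [Finset.disjoint_left]
                intro j hj hjT
                exact (Finset.mem_sdiff.mp hj).2 (Finset.mem_union_right _ hjT)
            rw [hTc] at h8
            have h9 : (N + 1) * L = N * L + L := by ring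
            omega
    obtain ⟨D0, hD0, hD0c⟩ := Finset.exists_subset_card_eq (show m ≤ D.card by omega)
    have hE0 : EE W z D0 ≤ ((2 * 3 ^ m : ℕ) : ℤ) := by
      unfold EE
      rw [hD0c]
      have := cnt_le_cube W z D0
      rw [hD0c] at this
      have h' : (cnt W z D0 : ℤ) ≤ 3 ^ m := by exact_mod_cast this
      push_cast
      linarith
    have hsd : (2 * 3 ^ m) * L ≤ (D \ D0).card := by
      rw [Finset.card_sdiff_of_subset hD0, hD0c]
      omega
    obtain ⟨D1, D2, h12, h2D, hm1', hRc, hEE⟩ := hpig (2 * 3 ^ m) D0 hD0 (le_of_eq hD0c.symm) hE0 hsd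
    set R := D2 \ D1 with hR
    have hRD2 : R ⊆ D2 := Finset.sdiff_subset
    have hRD : R ⊆ D := hRD2.trans h2D
    -- balanced slices
    have hVz : ∀ i ∈ R, ∀ a, a ≠ z i → EE W (Function.update z i a) (D2.erase i) = 0 := by
      intro i hi a ha
      have hiD2 := hRD2 hi
      have hi1 : i ∉ D1 := (Finset.mem_sdiff.mp hi).2
      have hsub : D1 ⊆ D2.erase i := by
        intro j hj
        rw [Finset.mem_erase]
        exact ⟨fun h => hi1 (h ▸ hj), h12 hj⟩
      have hcd : m ≤ (D2.erase i).card := hm1'.trans (Finset.card_le_card hsub)
      have h1 := EE_insert W z (Finset.notMem_erase i D2)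
      rw [Finset.insert_erase hiD2] at h1
      have h2 : EE W z (D2.erase i) ≤ EE W z D1 :=
        hmono' D1 (D2.erase i) hm1' hsub ((Finset.erase_subset i D2).trans h2D)
      have hnp : ∀ a ∈ (univ : Finset (ZMod 3)).erase (z i),
          EE W (Function.update z i a) (D2.erase i) ≤ 0 := by
        intro a ha
        exact hsz i (h2D hiD2) a (Finset.ne_of_mem_erase ha) _ _ (Finset.erase_subset_erase i h2D)
          (Agree.refl _ _) hcd
      have h3 : ∑ a ∈ (univ : Finset (ZMod 3)).erase (z i),
          EE W (Function.update z i a) (D2.erase i) = 0 := by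
        apply le_antisymm (Finset.sum_nonpos hnp)
        linarith
      exact (Finset.sum_eq_zero_iff_of_nonpos hnp).mp h3 a
        (Finset.mem_erase.mpr ⟨ha, mem_univ _⟩)
    have hbalV : ∀ i ∈ R, ∀ a, a ≠ z i → 3 * cnt W (Function.update z i a) (D2.erase i)
        = 3 ^ (D2.erase i).card := by
      intro i hi a ha
      have := hVz i hi a ha
      unfold EE at this
      have h' : (3 * (cnt W (Function.update z i a) (D2.erase i) : ℤ)) = 3 ^ (D2.erase i).card := by
        linarith
      exact_mod_cast h'
    have hJ : ∀ i ∈ R, ∀ a, a ≠ z i → (J W (Function.update z i a) (D2.erase i)).card ≤ jb m p := by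
      intro i hi a ha
      have hiD := hRD hi
      have hup : Agree (D.erase i) (Function.update z i a) (Function.update b i a) := by
        intro j hj
        by_cases hji : j = i
        · subst hji
          simp
        · rw [Function.update_of_ne hji, Function.update_of_ne hji]
          apply hzb
          intro h
          exact hj (Finset.mem_erase.mpr ⟨hji, h⟩)
      apply lemmaS m hm1 W p
      · intro ho
        exact slice_order hiD hO (hA i hiD a ha) (ho.mono (Finset.erase_subset_erase i h2D) hup)
      · intro b' F hF hb' hcF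
        have h0 : EE W b' (D2.erase i) = 0 := by
          rw [← hVz i hi a ha]
          unfold EE
          rw [cnt_congr W hb']
        have h1 : EE W b' F = 0 := by
          apply EE_sub_zero hF h0
          intro y hy
          apply hsz i hiD a ha y F (hF.trans (Finset.erase_subset_erase i h2D)) _ hcF
          exact (hy.trans hb').mono (Finset.erase_subset_erase i h2D)
        unfold EE at h1
        have h' : (3 * (cnt W b' F : ℤ)) = 3 ^ F.card := by linarith
        exact_mod_cast h'
    set B : ι → Finset ι := fun i => ((univ : Finset (ZMod 3)).filter (fun a => a ≠ z i)).biUnion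
      (fun a => J W (Function.update z i a) (D2.erase i)) with hBdef
    have hBcard : ∀ i ∈ R, (B i).card ≤ 3 * jb m p := by
      intro i hi
      refine le_trans (Finset.card_biUnion_le_card_mul _ _ (jb m p) ?_) ?_
      · intro a ha
        rw [mem_filter] at ha
        exact hJ i hi a ha.2
      · apply Nat.mul_le_mul_right
        refine le_trans (Finset.card_le_univ _) ?_
        rw [ZMod.card]
    obtain ⟨I, hIR, hI4, hIB⟩ := exists_indep R B (3 * jb m p) hBcard 4 (by rw [hRc, hL]; rfl)
    have hID1 : Disjoint I D1 := by
      rw [Finset.disjoint_left]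
      intro j hj
      exact (Finset.mem_sdiff.mp (hIR hj)).2
    have hfib : ∀ w ∈ cube z D1, cnt W w I ≤ 27 := by
      intro w hw
      rw [mem_cube] at hw
      have hwI : ∀ i ∈ I, w i = z i := fun i hi => hw i ((Finset.mem_sdiff.mp (hIR hi)).2)
      have hwz2 : Agree D2 w z := hw.mono h12
      have hwb : Agree D w b := (hwz2.mono h2D).trans hzb
      apply fibre W w I hI4
      · rintro i hi y hy ⟨k, hk, hki, hyk⟩
        have hkR := hIR hk
        have hkD2 := hRD2 hkR
        have hiR := hIR hi
        rw [hwI k hk] at hyk
        have hyz : Agree D2 y z := (hy.mono (hIR.trans hRD2)).trans hwz2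
        refine line_eq_one (b := Function.update z k (y k)) (D := D2.erase k)
          (Finset.mem_erase.mpr ⟨hki.symm, hRD2 hiR⟩) ?_ (hbalV k hkR (y k) hyk) (agree_slice hyz)
        intro x hx he
        apply hIB k hk i hi hki
        rw [hBdef]
        simp only [mem_biUnion, mem_filter, mem_univ, true_and]
        refine ⟨y k, hyk, ?_⟩
        rw [mem_J]
        exact ⟨Finset.mem_erase.mpr ⟨hki.symm, hRD2 hiR⟩, x, hx, he⟩
      · intro i hi he
        exact hnA i (hRD (hIR hi)) ⟨w, hwb, hwI i hi, he⟩
    have hX := hP (I ∪ D1) (Finset.union_subset (hIR.trans hRD) (h12.trans h2D))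
      (hm1'.trans (Finset.card_le_card Finset.subset_union_right))
    unfold EE at hX
    rw [cnt_split W z hID1, Finset.card_union_of_disjoint hID1, hI4] at hX
    have hle : ∑ w ∈ cube z D1, cnt W w I ≤ 27 * 3 ^ D1.card := by
      refine le_trans (Finset.sum_le_card_nsmul _ _ 27 hfib) ?_
      rw [card_cube, smul_eq_mul, mul_comm]
    have hle' : ((∑ w ∈ cube z D1, cnt W w I : ℕ) : ℤ) ≤ 27 * 3 ^ D1.card := by exact_mod_cast hle
    rw [pow_add] at hX
    norm_num at hX
    push_cast at hle'
    linarith

end H51Ham
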