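import Pool.Agent.H51.Ham.Def

/-!
Lemma S: if all large subcubes of `(b, D)` contain exactly one third of their points and the order is
bounded, then few directions have edges.
-/

set_option autoImplicit false
set_option linter.unusedSectionVars false

namespace H51Ham

open Finset

variable {ι : Type*} [DecidableEq ι] [Fintype ι]

/-- the bound for the number of directions with edges. -/
def jb (r : ℕ) : ℕ → ℕ
  | 0 => 0
  | q + 1 => 3 * jb r q + r

theorem z3 : ∀ a b c y : ZMod 3, a ≠ b → c ≠ a → c ≠ b → y ≠ c → y = a ∨ y = b := by decide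

theorem agree_slice {D : Finset ι} {i : ι} {x b : ι → ZMod 3} (hx : Agree D x b) :
    Agree (D.erase i) x (Function.update b i (x i)) := by
  intro j hj
  by_cases hji : j = i
  · subst hji
    simp
  · rw [Function.update_of_ne hji]
    apply hx
    intro hD
    exact hj (Finset.mem_erase.mpr ⟨hji, hD⟩)

theorem agree_of_slice {D : Finset ι} {i : ι} {x b : ι → ZMod 3} {a : ZMod 3} (hi : i ∈ D)
    (hx : Agree (D.erase i) x (Function.update b i a)) : Agree D x b :=
  (hx.mono (Finset.erase_subset i D)).trans (agree_update hi b a)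

theorem union_singleton_erase {D : Finset ι} {i : ι} (hi : i ∈ D) : {i} ∪ D.erase i = D := by
  ext j
  simp only [mem_union, mem_singleton, mem_erase]
  constructor
  · rintro (rfl | h)
    · exact hi
    · exact h.2
  · intro h
    by_cases hj : j = i
    · exact Or.inl hj
    · exact Or.inr ⟨hj, h⟩

/-- count by lines in direction `i`. -/
theorem cnt_lines (W : Finset (ι → ZMod 3)) (b : ι → ZMod 3) {D : Finset ι} {i : ι} (hi : i ∈ D) :
    cnt W b D = ∑ y ∈ cube b (D.erase i), cnt W y {i} := by
  conv_lhs => rw [← union_singleton_erase hi]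
  rw [cnt_split W b (by simp)]

/-- no edges in direction `i`: at most one third of the points. -/
theorem cnt_le_of_no_edge {W : Finset (ι → ZMod 3)} {b : ι → ZMod 3} {D : Finset ι} {i : ι}
    (hi : i ∈ D) (hno : ∀ x, Agree D x b → ¬ Edge W i x) : 3 * cnt W b D ≤ 3 ^ D.card := by
  have h1 : cnt W b D ≤ 3 ^ (D.erase i).card := by
    rw [cnt_lines W b hi, ← card_cube b (D.erase i), Finset.card_eq_sum_ones]
    apply Finset.sum_le_sum
    intro y hy
    rw [mem_cube] at hy
    apply cnt_line_le_one
    intro x hx
    apply hno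
    exact (hx.mono (by simpa using hi)).trans (hy.mono (Finset.erase_subset i D))
  have h2 : D.card = (D.erase i).card + 1 := by
    rw [Finset.card_erase_of_mem hi]
    have : 0 < D.card := Finset.card_pos.mpr ⟨i, hi⟩
    omega
  rw [h2, pow_succ]
  omega

/-- balanced and no edges in direction `i`: every line in direction `i` has exactly one point. -/
theorem line_eq_one {W : Finset (ι → ZMod 3)} {b : ι → ZMod 3} {D : Finset ι} {i : ι} (hi : i ∈ D)
    (hno : ∀ x, Agree D x b → ¬ Edge W i x) (hbal : 3 * cnt W b D = 3 ^ D.card)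
    {y : ι → ZMod 3} (hy : Agree D y b) : cnt W y {i} = 1 := by
  have hle : ∀ z, Agree D z b → cnt W z {i} ≤ 1 := by
    intro z hz
    apply cnt_line_le_one
    intro x hx
    apply hno
    exact (hx.mono (by simpa using hi)).trans hz
  have h2 : D.card = (D.erase i).card + 1 := by
    rw [Finset.card_erase_of_mem hi]
    have : 0 < D.card := Finset.card_pos.mpr ⟨i, hi⟩
    omega
  have hsum : ∑ z ∈ cube b (D.erase i), cnt W z {i} = ∑ z ∈ cube b (D.erase i), 1 := by
    rw [← cnt_lines W b hi, ← Finset.card_eq_sum_ones, card_cube]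
    rw [h2, pow_succ] at hbal
    omega
  have hall := (Finset.sum_eq_sum_iff_of_le (s := cube b (D.erase i))
    (f := fun z => cnt W z {i}) (g := fun _ => 1) (by
      intro z hz
      rw [mem_cube] at hz
      exact hle z (hz.mono (Finset.erase_subset i D)))).mp hsum
  have hy' : Function.update y i (b i) ∈ cube b (D.erase i) := by
    rw [mem_cube]
    intro j hj
    by_cases hji : j = i
    · subst hji
      simp
    · rw [Function.update_of_ne hji]
      apply hy
      intro hD
      exact hj (Finset.mem_erase.mpr ⟨hji, hD⟩)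
  have h3 := hall _ hy'
  rw [← h3]
  exact cnt_congr W (agree_update (Finset.mem_singleton_self i) y (b i)).symm

/-- the value of the coordinate `i` at the end points of the edges in direction `i`. -/
def AV (W : Finset (ι → ZMod 3)) (b : ι → ZMod 3) (D : Finset ι) (i : ι) (a : ZMod 3) : Prop :=
  ∃ x, Agree D x b ∧ x i = a ∧ Edge W i x

theorem av_two {W : Finset (ι → ZMod 3)} {b : ι → ZMod 3} {D : Finset ι} {i : ι} (hi : i ∈ D)
    {x : ι → ZMod 3} (hx : Agree D x b) (he : Edge W i x) :
    ∃ a a' : ZMod 3, a ≠ a' ∧ AV W b D i a ∧ AV W b D i a' := by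
  obtain ⟨hxW, a, ha, hu⟩ := he
  refine ⟨x i, a, ha.symm, ⟨x, hx, rfl, hxW, a, ha, hu⟩, Function.update x i a, ?_, ?_, ?_⟩
  · exact (agree_update hi x a).trans hx
  · simp
  · exact Edge.swap hxW ha hu

/-- slices through end points of edges have smaller order. -/
theorem slice_order {W : Finset (ι → ZMod 3)} {b : ι → ZMod 3} {D : Finset ι} {i : ι} {q : ℕ}
    (hi : i ∈ D) (hO : ¬ Ord W (q + 1) b D) {a : ZMod 3} (ha : AV W b D i a) :
    ¬ Ord W q (Function.update b i a) (D.erase i) := by
  obtain ⟨x, hx, rfl, he⟩ := ha
  intro ho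
  exact hO (ord_step hi hx he (ho.mono subset_rfl (agree_slice hx).symm))

/-- some element of `S` lies in few of the sets `B i'`. -/
theorem exists_few_in (S : Finset ι) (B : ι → Finset ι) (K : ℕ) (hS : S.Nonempty)
    (hB : ∀ i ∈ S, (B i).card ≤ K) : ∃ i ∈ S, (S.filter (fun i' => i ∈ B i')).card ≤ K := by
  classical
  by_contra hcon
  push Not at hcon
  have h1 : ∑ i ∈ S, (S.filter (fun i' => i ∈ B i')).card = ∑ i' ∈ S, (S.filter (fun i => i ∈ B i')).card :=
    Finset.sum_card_bipartiteAbove_eq_sum_card_bipartiteBelow (fun i i' => i ∈ B i')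
  have h2 : ∑ i' ∈ S, (S.filter (fun i => i ∈ B i')).card ≤ ∑ i' ∈ S, K := by
    apply Finset.sum_le_sum
    intro i' hi'
    refine le_trans (Finset.card_le_card ?_) (hB i' hi')
    intro i hi
    exact (mem_filter.mp hi).2
  have h3 : ∑ i ∈ S, K < ∑ i ∈ S, (S.filter (fun i' => i ∈ B i')).card :=
    Finset.sum_lt_sum_of_nonempty hS (fun i hi => hcon i hi)
  omega

theorem lemmaS (r : ℕ) (hr : 1 ≤ r) (W : Finset (ι → ZMod 3)) : ∀ (q : ℕ) (b : ι → ZMod 3)
    (D : Finset ι), ¬ Ord W (q + 1) b D →
    (∀ (b' : ι → ZMod 3) (D' : Finset ι), D' ⊆ D → Agree D b' b → r ≤ D'.card →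
      3 * cnt W b' D' = 3 ^ D'.card) → (J W b D).card ≤ jb r q := by
  classical
  intro q
  induction q with
  | zero =>
    intro b D hO _
    have : J W b D = ∅ := by
      rw [Finset.eq_empty_iff_forall_notMem]
      intro i hi
      rw [mem_J] at hi
      obtain ⟨hiD, x, hx, he⟩ := hi
      exact hO ⟨i, hiD, ∅, Finset.empty_subset _, x, hx, trivial, x, Agree.refl _ _, he⟩
    rw [this]
    simp
  | succ q ih =>
    intro b D hO hbal
    by_contra hcon
    push Not at hcon
    set S := J W b D with hSdef
    set B : ι → Finset ι := fun i => ((univ : Finset (ZMod 3)).filter (fun a => AV W b D i a)).biUnion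
      (fun a => J W (Function.update b i a) (D.erase i)) with hBdef
    have hSD : S ⊆ D := fun i hi => (mem_J.mp hi).1
    have hBcard : ∀ i ∈ S, (B i).card ≤ 3 * jb r q := by
      intro i hi
      have hiD := hSD hi
      refine le_trans (Finset.card_biUnion_le_card_mul _ _ (jb r q) ?_) ?_
      · intro a ha
        rw [mem_filter] at ha
        apply ih _ _ (slice_order hiD hO ha.2)
        intro b' D' hD' hb' hc
        exact hbal b' D' (hD'.trans (Finset.erase_subset i D)) (agree_of_slice hiD hb') hc
      · apply Nat.mul_le_mul_right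
        refine le_trans (Finset.card_le_univ _) ?_
        rw [ZMod.card]
    have hSne : S.Nonempty := by
      rw [← Finset.card_pos]
      omega
    obtain ⟨i, hi, hfew⟩ := exists_few_in S B (3 * jb r q) hSne hBcard
    have hiD := hSD hi
    -- the directions `i'` whose slices have no edges in direction `i`
    set N := (S.erase i).filter (fun i' => i ∉ B i') with hN
    have hNcard : r - 1 ≤ N.card := by
      have h1 : (S.erase i).card = S.card - 1 := Finset.card_erase_of_mem hi
      have h2 : ((S.erase i).filter (fun i' => i ∈ B i')).card + N.card = (S.erase i).card :=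
        Finset.card_filter_add_card_filter_not _
      have h3 : ((S.erase i).filter (fun i' => i ∈ B i')).card ≤ (S.filter (fun i' => i ∈ B i')).card := by
        apply Finset.card_le_card
        apply Finset.filter_subset_filter
        exact Finset.erase_subset i S
      have h4 : jb r (q + 1) = 3 * jb r q + r := rfl
      omega
    obtain ⟨I, hIN, hIcard⟩ := Finset.exists_subset_card_eq hNcard
    have hI1 : ∀ i' ∈ I, i' ∈ S ∧ i' ≠ i ∧ i ∉ B i' := by
      intro i' hi'
      have := hIN hi'
      rw [hN, mem_filter, mem_erase] at this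
      exact ⟨this.1.2, this.1.1, this.2⟩
    have hiI : i ∉ I := fun h => (hI1 i h).2.1 rfl
    obtain ⟨x, hx, he⟩ := (mem_J.mp hi).2
    have hDcard : r + 1 ≤ D.card := by
      have h4 : jb r (q + 1) = 3 * jb r q + r := rfl
      have := Finset.card_le_card hSD
      omega
    have hIsub : {i} ∪ I ⊆ D := by
      intro j hj
      rw [mem_union, mem_singleton] at hj
      rcases hj with rfl | hj
      · exact hiD
      · exact hSD (hI1 j hj).1
    have hcardI : ({i} ∪ I).card = r := by
      rw [Finset.card_union_of_disjoint (by simpa using hiI), Finset.card_singleton, hIcard]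
      omega
    have hb1 := hbal x ({i} ∪ I) hIsub hx (by rw [hcardI])
    rw [hcardI, cnt_split W x (by simpa using hiI)] at hb1
    have hxc : x ∈ cube x I := mem_cube.mpr (Agree.refl _ _)
    have hone : ∀ y ∈ (cube x I).erase x, cnt W y {i} = 1 := by
      intro y hy
      rw [mem_erase, mem_cube] at hy
      obtain ⟨hyx, hyA⟩ := hy
      obtain ⟨i', hi'⟩ : ∃ i', y i' ≠ x i' := by
        by_contra h
        push Not at h
        exact hyx (funext h)
      have hi'I : i' ∈ I := by
        by_contra h
        exact hi' (hyA i' h)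
      obtain ⟨hi'S, hne, hiB⟩ := hI1 i' hi'I
      have hi'D := hSD hi'S
      have hnoslice : ∀ a, AV W b D i' a → ∀ x', Agree (D.erase i') x' (Function.update b i' a) →
          ¬ Edge W i x' := by
        intro a ha x' hx' he'
        apply hiB
        rw [hBdef]
        simp only [mem_biUnion, mem_filter, mem_univ, true_and]
        refine ⟨a, ha, ?_⟩
        rw [mem_J]
        exact ⟨Finset.mem_erase.mpr ⟨hne.symm, hiD⟩, x', hx', he'⟩
      have hxna : ¬ AV W b D i' (x i') := by
        intro h
        exact hnoslice _ h x (agree_slice hx) he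
      obtain ⟨x1, hx1, he1⟩ := (mem_J.mp hi'S).2
      obtain ⟨a, a', haa, h1, h2⟩ := av_two hi'D hx1 he1
      have hAy : AV W b D i' (y i') := by
        rcases z3 a a' (x i') (y i') haa (fun h => hxna (h ▸ h1)) (fun h => hxna (h ▸ h2)) hi' with h | h
        · rw [h]; exact h1
        · rw [h]; exact h2
      have hyD : Agree D y b := (hyA.mono (fun j hj => hSD (hI1 j hj).1)).trans hx
      refine line_eq_one (Finset.mem_erase.mpr ⟨hne.symm, hiD⟩ : i ∈ D.erase i') (hnoslice _ hAy) ?_
        (agree_slice hyD)
      apply hbal _ _ (Finset.erase_subset i' D) (agree_update hi'D b _)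
      rw [Finset.card_erase_of_mem hi'D]
      omega
    have h2x : 2 ≤ cnt W x {i} := by
      rw [cnt_line]
      obtain ⟨hxW, a, ha, hu⟩ := he
      have : ({x i, a} : Finset (ZMod 3)) ⊆ univ.filter (fun a => Function.update x i a ∈ W) := by
        intro c hc
        rw [mem_insert, mem_singleton] at hc
        rw [mem_filter]
        refine ⟨mem_univ _, ?_⟩
        rcases hc with rfl | rfl
        · simpa using hxW
        · exact hu
      have h2 := Finset.card_le_card this
      rw [Finset.card_pair ha.symm] at h2
      exact h2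
    rw [← Finset.add_sum_erase _ _ hxc, Finset.sum_congr rfl hone, ← Finset.card_eq_sum_ones,
      Finset.card_erase_of_mem hxc, card_cube, hIcard] at hb1
    have h5 : 3 ^ r = 3 * 3 ^ (r - 1) := by
      obtain ⟨s, rfl⟩ : ∃ s, r = s + 1 := ⟨r - 1, by omega⟩
      rw [pow_succ]
      simp [mul_comm]
    have h6 : 0 < 3 ^ (r - 1) := by positivity
    omega

end H51Ham
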